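import Pool.Agent.Q131.Snk.Gen

/-!
MP_731b42_co, Q1: a shortest-path triangulation of the sphere is sinkable if and only if it is
floatable.

`IsSPT G v` (`Pool/Agent/Helper479/Sink/Defs.lean`): `v` is a shortest-path triangulation of the
unit sphere with underlying graph `G` on `n ≥ 4` vertices (with `3n - 6` edges and all faces
bounded by 3-cycles).  `Generic v` (`Pool/Agent/Q131/Snk/Gen.lean`) is the genericity convention of
the problem: no great circle contains more than two vertices and no great circle through the poles
contains more than one vertex.  `Sinkable`, `Floatable` (`Pool/Agent/Q131/Snk/Defs.lean`): some
continuous family of shortest-path embeddings of `G` that starts at `v` and keeps every vertex on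
its own longitude ends with all vertices strictly below (above) the equator.
-/

namespace Pool.Agent.Results.MP_731b42_co.SinkableIffFloatable

open Pool.Agent.Q131.Snk
open Helper479.Sink (IsSPT)

/-- Q1 holds: a shortest-path triangulation of the sphere (of a maximal planar graph, with the
genericity convention of the problem) is sinkable if and only if it is floatable. -/
theorem result : ∀ (n : ℕ) (G : SimpleGraph (Fin n)) (v : Fin n → Fin 3 → ℝ),
    IsSPT G v → G.Connected → Generic v → (Sinkable G v ↔ Floatable G v) :=
  fun _ _ _ hv hG hgen => generic_iff hv hG hgen

end Pool.Agent.Results.MP_731b42_co.SinkableIffFloatable
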